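import Pool.Agent.GHCM.Types
import Pool.Agent.FermAll.CM
import Pool.Agent.FermAll.Small

/-!
# The coniveau of the cohomology of products of Fermat varieties
-/

set_option autoImplicit false

namespace Pool.Agent.GHCM

open Finset Pool.Agent.FermD Pool.Agent.FermAll

variable {m : ℕ} [NeZero m]

/-- the sum of the residues of `u x`, `x ∈ s` -/
def wt (s : Multiset (ZMod m)) (u : (ZMod m)ˣ) : ℕ := (s.map fun x => ((u : ZMod m) * x).val).sum

theorem dvd_wt {s : Multiset (ZMod m)} (hs : s.sum = 0) (u : (ZMod m)ˣ) : m ∣ wt s u := by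
  rw [← ZMod.natCast_eq_zero_iff, wt, Nat.cast_multiset_sum, Multiset.map_map]
  have : (s.map ((fun i : ℕ => (i : ZMod m)) ∘ fun x => ((u : ZMod m) * x).val)).sum =
      (s.map fun x => (u : ZMod m) * x).sum := by
    congr 1
    refine Multiset.map_congr rfl fun x _ => ?_
    exact ZMod.natCast_zmod_val _
  rw [this, Multiset.sum_map_mul_left, Multiset.map_id', hs, mul_zero]

theorem wt_neg {s : Multiset (ZMod m)} (h0 : (0 : ZMod m) ∉ s) (u : (ZMod m)ˣ) :
    wt s u + wt s (-u) = s.card * m := by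
  rw [wt, wt, ← Multiset.sum_map_add]
  have h : ∀ x ∈ s, ((u : ZMod m) * x).val + (((-u : (ZMod m)ˣ) : ZMod m) * x).val = m := by
    intro x hx
    have : NeZero ((u : ZMod m) * x) := ⟨fun h => h0 (by
      rw [Units.mul_right_eq_zero] at h
      rwa [h] at hx)⟩
    rw [Units.val_neg, neg_mul, ZMod.val_neg_of_ne_zero]
    exact Nat.add_sub_cancel' (ZMod.val_lt _).le
  rw [Multiset.map_congr rfl h, Multiset.map_const', Multiset.sum_replicate, smul_eq_mul]

omit [NeZero m] in
theorem sum_wt (P : (ZMod m)ˣ) (s : Multiset (ZMod m)) (t : (ZMod m)ˣ) :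
    (s.map fun x => ∑ i ∈ range (orderOf P), (((P ^ i * t : (ZMod m)ˣ) : ZMod m) * x).val).sum =
      ∑ i ∈ range (orderOf P), wt s (P ^ i * t) := by
  induction s using Multiset.induction_on with
  | empty => simp [wt]
  | cons a s ih =>
    rw [Multiset.map_cons, Multiset.sum_cons, ih, ← sum_add_distrib]
    refine sum_congr rfl fun i _ => ?_
    rw [wt, wt, Multiset.map_cons, Multiset.sum_cons]

omit [NeZero m] in
theorem sum_shift (P t : (ZMod m)ˣ) (F : (ZMod m)ˣ → ℕ) :
    ∑ i ∈ range (orderOf P), F (P ^ i * (P * t)) = ∑ i ∈ range (orderOf P), F (P ^ i * t) := by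
  have h1 : ∀ i ∈ range (orderOf P), F (P ^ i * (P * t)) = F (P ^ (i + 1) * t) := by
    intro i _
    rw [pow_succ, mul_assoc]
  rw [sum_congr rfl h1]
  obtain ⟨f, hf⟩ := Nat.exists_eq_succ_of_ne_zero (orderOf_pos P).ne'
  rw [hf, sum_range_succ, sum_range_succ' (fun i => F (P ^ i * t)), pow_zero, ← Nat.succ_eq_add_one,
    ← hf, pow_orderOf_eq_one]

/-- **The coniveau theorem.** Let `s` be a family of `n + 2 r` nonzero elements of `ZMod m` with sum
zero such that `⟨t s⟩ ≥ c + r` on the average over the classes of `t` modulo the powers of `P`. Then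
`n = k + 2 c` and `⟨t s⟩ - c - r` is on the average the sum of `k` types of complex multiplication
`b l`, which are the types of triples `x l, y l, z l`, and the family `s` together with the negatives
of these triples is algebraic. -/
theorem coniveau (hm : m ∈ degrees) (P : (ZMod m)ˣ) {s : Multiset (ZMod m)}
    (h0 : (0 : ZMod m) ∉ s) (hs : s.sum = 0) {r c n : ℕ} (hcard : s.card = n + 2 * r)
    (hc : ∀ t : (ZMod m)ˣ, (c + r) * orderOf P * m ≤
      (s.map fun x => ∑ i ∈ range (orderOf P),
        (((P ^ i * t : (ZMod m)ˣ) : ZMod m) * x).val).sum) :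
    ∃ k : ℕ, n = k + 2 * c ∧ ∃ (b : Fin k → (ZMod m)ˣ → ℕ) (x y z : Fin k → ZMod m),
      (∀ l t, b l t + b l (-t) = 1) ∧
      (∀ t : (ZMod m)ˣ, (s.map fun x => ∑ i ∈ range (orderOf P),
        (((P ^ i * t : (ZMod m)ˣ) : ZMod m) * x).val).sum =
          (∑ l, ∑ i ∈ range (orderOf P), b l (P ^ i * t) + (c + r) * orderOf P) * m) ∧
      (∀ l, x l ≠ 0 ∧ y l ≠ 0 ∧ z l ≠ 0 ∧ x l + y l + z l = 0 ∧ ∀ t : (ZMod m)ˣ,
        ((t : ZMod m) * x l).val + ((t : ZMod m) * y l).val + ((t : ZMod m) * z l).val =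
          (b l t + 1) * m) ∧
      Alg (curves P) (s + ∑ l, {-x l, -y l, -z l}) := by
  classical
  set f := orderOf P with hf
  have hf0 : 0 < f := orderOf_pos P
  have hm0 : 0 < m := NeZero.pos m
  replace hc : ∀ t : (ZMod m)ˣ, (c + r) * f * m ≤ ∑ i ∈ range f, wt s (P ^ i * t) := fun t => by
    rw [hf, ← sum_wt]
    exact hc t
  choose w hw using fun u => dvd_wt hs u
  have hFw : ∀ t, ∑ i ∈ range f, wt s (P ^ i * t) = m * ∑ i ∈ range f, w (P ^ i * t) := by
    intro t
    rw [mul_sum]
    exact sum_congr rfl fun i _ => hw _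
  have hc' : ∀ t, (c + r) * f ≤ ∑ i ∈ range f, w (P ^ i * t) := by
    intro t
    have h1 := hc t
    rw [hFw, mul_comm m] at h1
    exact Nat.le_of_mul_le_mul_right h1 hm0
  have hneg : ∀ t, ∑ i ∈ range f, w (P ^ i * t) + ∑ i ∈ range f, w (P ^ i * -t) =
      (n + 2 * r) * f := by
    intro t
    rw [← sum_add_distrib]
    have h1 : ∀ i ∈ range f, w (P ^ i * t) + w (P ^ i * -t) = n + 2 * r := by
      intro i _
      have h2 := wt_neg h0 (P ^ i * t)
      rw [hw, hw, hcard, ← mul_add, mul_comm m] at h2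
      have h3 := Nat.eq_of_mul_eq_mul_right hm0 h2
      rwa [← mul_neg] at h3
    rw [sum_congr rfl h1, sum_const, card_range, smul_eq_mul, mul_comm]
  have hn : 2 * c ≤ n := by
    have h1 := hc' 1
    have h2 := hc' (-1)
    have h3 := hneg 1
    have h4 : 2 * (c + r) * f ≤ (n + 2 * r) * f := by nlinarith
    have h5 := Nat.le_of_mul_le_mul_right h4 hf0
    omega
  obtain ⟨k, hk⟩ := Nat.exists_eq_add_of_le hn
  obtain ⟨b, hb, hbs⟩ := exists_types_of_effective (mem_degrees_lt hm) P k
    (fun t => ∑ i ∈ range f, w (P ^ i * t) - (c + r) * f)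
    (fun t => by
      rw [sum_shift])
    (fun t => by
      change (∑ i ∈ range f, w (P ^ i * t) - (c + r) * f) +
        (∑ i ∈ range f, w (P ^ i * -t) - (c + r) * f) = k * f
      have h1 := hc' t
      have h2 := hc' (-t)
      have h3 := hneg t
      have h4 : (n + 2 * r) * f = k * f + (c + r) * f + (c + r) * f := by rw [hk]; ring
      omega)
  obtain ⟨T, L, hTL⟩ := exists_types m hm
  choose x y z hx hy hz hxyz hv using fun l => exists_triple (mem_degrees_lt hm) hTL (hb l)
  refine ⟨k, by omega, b, x, y, z, hb, fun t => ?_,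
    fun j => ⟨hx j, hy j, hz j, hxyz j, hv j⟩, ?_⟩
  · have h1 : ∑ l, ∑ i ∈ range f, b l (P ^ i * t) =
        ∑ i ∈ range f, w (P ^ i * t) - (c + r) * f := hbs t
    have h2 := hFw t
    rw [hf, ← sum_wt, ← hf] at h2
    rw [h1, h2, Nat.sub_add_cancel (hc' t), mul_comm]
  refine (tate_small (caseC_of_degrees hm) P _).1 ⟨⟨?_, 2 * k + c + r, ?_, fun t => ?_⟩, ?_⟩
  · rw [Multiset.mem_add, Multiset.mem_sum]
    rintro (h | ⟨i, _, hi⟩)
    · exact h0 h
    · simp only [Multiset.insert_eq_cons, Multiset.mem_cons, Multiset.mem_singleton] at hi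
      rcases hi with h | h | h
      · exact hx i (neg_eq_zero.1 h.symm)
      · exact hy i (neg_eq_zero.1 h.symm)
      · exact hz i (neg_eq_zero.1 h.symm)
  · rw [Multiset.card_add, Multiset.card_sum, hcard, Finset.sum_congr rfl fun i _ => (show
      Multiset.card ({-x i, -y i, -z i} : Multiset (ZMod m)) = 3 from rfl)]
    rw [Finset.sum_const, Finset.card_univ, smul_eq_mul, Fintype.card_fin]
    omega
  · rw [Multiset.map_add, Multiset.sum_add, sum_wt, hFw, map_sum_sum]
    have h1 : ∀ l ∈ (univ : Finset (Fin k)), (({-x l, -y l, -z l} : Multiset (ZMod m)).map fun c =>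
        ∑ i ∈ range f, (((P ^ i * t : (ZMod m)ˣ) : ZMod m) * c).val).sum +
        (∑ i ∈ range f, b l (P ^ i * t) + f) * m = 3 * f * m := by
      intro l _
      simp only [Multiset.insert_eq_cons, Multiset.map_cons, Multiset.map_singleton,
        Multiset.sum_cons, Multiset.sum_singleton]
      have h2 : ∀ {x : ZMod m}, x ≠ 0 → ∀ u : (ZMod m)ˣ,
          ((u : ZMod m) * -x).val + ((u : ZMod m) * x).val = m := by
        intro x hx u
        have : NeZero ((u : ZMod m) * x) := ⟨fun h => hx (by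
          rwa [Units.mul_right_eq_zero] at h)⟩
        rw [mul_neg, ZMod.val_neg_of_ne_zero]
        exact Nat.sub_add_cancel (ZMod.val_lt _).le
      have h3 : ∀ u : (ZMod m)ˣ, (((u : ZMod m) * -x l).val + (((u : ZMod m) * -y l).val +
          ((u : ZMod m) * -z l).val)) + (b l u + 1) * m = 3 * m := by
        intro u
        have h4 := hv l u
        have h5 := h2 (hx l) u
        have h6 := h2 (hy l) u
        have h7 := h2 (hz l) u
        omega
      rw [← sum_add_distrib, ← sum_add_distrib, add_mul, sum_mul]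
      have h8 : f * m = ∑ _i ∈ range f, m := by rw [sum_const, card_range, smul_eq_mul]
      rw [h8, ← sum_add_distrib, ← sum_add_distrib]
      have h9 : ∀ i ∈ range f, ((((P ^ i * t : (ZMod m)ˣ) : ZMod m) * -x l).val +
          ((((P ^ i * t : (ZMod m)ˣ) : ZMod m) * -y l).val +
          (((P ^ i * t : (ZMod m)ˣ) : ZMod m) * -z l).val)) + (b l (P ^ i * t) * m + m) =
          3 * m := by
        intro i _
        have := h3 (P ^ i * t)
        rw [add_mul, one_mul] at this
        exact this
      rw [sum_congr rfl h9, sum_const, card_range, smul_eq_mul]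
      ring
    have h2 := sum_congr rfl h1
    rw [sum_add_distrib, ← sum_mul, sum_add_distrib, sum_const, card_univ, Fintype.card_fin,
      smul_eq_mul, sum_const, card_univ, Fintype.card_fin, smul_eq_mul, hbs t] at h2
    have h3 := hc' t
    obtain ⟨d, hd⟩ := Nat.exists_eq_add_of_le h3
    rw [hd] at h2 ⊢
    rw [Nat.add_sub_cancel_left] at h2
    have h4 : m * ((c + r) * f + d) + (d + k * f) * m +
        (∑ x_1, (({-x x_1, -y x_1, -z x_1} : Multiset (ZMod m)).map fun c =>
        ∑ i ∈ range f, (((P ^ i * t : (ZMod m)ˣ) : ZMod m) * c).val).sum) =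
        m * ((c + r) * f + d) + k * (3 * f * m) := by rw [← h2]; ring
    have h5 : (2 * k + c + r) * f * m + (d + k * f) * m =
        m * ((c + r) * f + d) + k * (3 * f * m) := by ring
    rw [← hf]
    omega
  · rw [Multiset.sum_add, hs, zero_add, ← Multiset.coe_sumAddMonoidHom, map_sum]
    refine Finset.sum_eq_zero fun i _ => ?_
    rw [Multiset.coe_sumAddMonoidHom]
    simp only [Multiset.insert_eq_cons, Multiset.sum_cons, Multiset.sum_singleton]
    linear_combination -hxyz i

end Pool.Agent.GHCM
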