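import Pool.Agent.GHCM.Cm

/-!
# The coniveau of the cohomology of abelian varieties with complex multiplication
-/

set_option autoImplicit false

namespace Pool.Agent.GHCM

open Finset Pool.Agent.FermD Pool.Agent.FermAll

variable {m : ℕ} [NeZero m]

/-- **The coniveau theorem for types of complex multiplication.** -/
theorem coniveau_types (hm : m ∈ degrees) (P : (ZMod m)ˣ) {ι : Type*} [Fintype ι]
    {a : ι → (ZMod m)ˣ → ℕ} (ha : ∀ i t, a i t + a i (-t) = 1) {c : ℕ}
    (hc : ∀ t : (ZMod m)ˣ, c * orderOf P ≤ ∑ i, ∑ j ∈ range (orderOf P), a i (P ^ j * t)) :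
    ∃ k : ℕ, Fintype.card ι = k + 2 * c ∧ ∃ b : Fin k → (ZMod m)ˣ → ℕ,
      (∀ l t, b l t + b l (-t) = 1) ∧
      (∀ t : (ZMod m)ˣ, ∑ i, ∑ j ∈ range (orderOf P), a i (P ^ j * t) =
        ∑ l, ∑ j ∈ range (orderOf P), b l (P ^ j * t) + c * orderOf P) ∧
      ∃ (x y z : ι → ZMod m) (x' y' z' : Fin k → ZMod m),
        (∀ i, x i ≠ 0 ∧ y i ≠ 0 ∧ z i ≠ 0 ∧ x i + y i + z i = 0 ∧ ∀ t : (ZMod m)ˣ,
          ((t : ZMod m) * x i).val + ((t : ZMod m) * y i).val + ((t : ZMod m) * z i).val =
            (a i t + 1) * m) ∧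
        (∀ l, x' l ≠ 0 ∧ y' l ≠ 0 ∧ z' l ≠ 0 ∧ x' l + y' l + z' l = 0 ∧ ∀ t : (ZMod m)ˣ,
          ((t : ZMod m) * x' l).val + ((t : ZMod m) * y' l).val + ((t : ZMod m) * z' l).val =
            (b l t + 1) * m) ∧
        Alg (curves P) (∑ i, {x i, y i, z i} + ∑ l, {-x' l, -y' l, -z' l}) := by
  obtain ⟨T, L, hTL⟩ := exists_types m hm
  choose x y z hx hy hz hs hv using fun i => exists_triple (mem_degrees_lt hm) hTL (ha i)
  have hm0 : 0 < m := NeZero.pos m
  have hcard : (∑ i, ({x i, y i, z i} : Multiset (ZMod m))).card =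
      Fintype.card ι + 2 * Fintype.card ι := by
    rw [Multiset.card_sum, Finset.sum_congr rfl fun i _ => (show
      Multiset.card ({x i, y i, z i} : Multiset (ZMod m)) = 3 from rfl)]
    rw [Finset.sum_const, Finset.card_univ, smul_eq_mul]
    ring
  have h0 : (0 : ZMod m) ∉ ∑ i, ({x i, y i, z i} : Multiset (ZMod m)) := by
    rw [Multiset.mem_sum]
    rintro ⟨i, _, hi⟩
    simp only [Multiset.insert_eq_cons, Multiset.mem_cons, Multiset.mem_singleton] at hi
    rcases hi with h | h | h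
    · exact hx i h.symm
    · exact hy i h.symm
    · exact hz i h.symm
  have hsum : (∑ i, ({x i, y i, z i} : Multiset (ZMod m))).sum = 0 := by
    rw [← Multiset.coe_sumAddMonoidHom, map_sum]
    refine Finset.sum_eq_zero fun i _ => ?_
    rw [Multiset.coe_sumAddMonoidHom]
    simp only [Multiset.insert_eq_cons, Multiset.sum_cons, Multiset.sum_singleton]
    rw [← add_assoc]
    exact hs i
  have hval : ∀ t : (ZMod m)ˣ, ((∑ i, ({x i, y i, z i} : Multiset (ZMod m))).map fun c =>
      ∑ i ∈ range (orderOf P), (((P ^ i * t : (ZMod m)ˣ) : ZMod m) * c).val).sum =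
      (∑ i, ∑ j ∈ range (orderOf P), a i (P ^ j * t) + Fintype.card ι * orderOf P) * m := by
    intro t
    rw [map_sum_sum]
    have h1 : ∀ i ∈ (univ : Finset ι), ((({x i, y i, z i} : Multiset (ZMod m))).map fun c =>
        ∑ i ∈ range (orderOf P), (((P ^ i * t : (ZMod m)ˣ) : ZMod m) * c).val).sum =
        (∑ j ∈ range (orderOf P), a i (P ^ j * t) + orderOf P) * m := by
      intro i _
      simp only [Multiset.insert_eq_cons, Multiset.map_cons, Multiset.map_singleton,
        Multiset.sum_cons, Multiset.sum_singleton]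
      rw [← Finset.sum_add_distrib, ← Finset.sum_add_distrib, add_mul, Finset.sum_mul]
      have h2 : ∀ j ∈ range (orderOf P), (((P ^ j * t : (ZMod m)ˣ) : ZMod m) * x i).val +
          ((((P ^ j * t : (ZMod m)ˣ) : ZMod m) * y i).val +
          (((P ^ j * t : (ZMod m)ˣ) : ZMod m) * z i).val) = a i (P ^ j * t) * m + m := by
        intro j _
        have := hv i (P ^ j * t)
        rw [← add_assoc, this]
        ring
      rw [Finset.sum_congr rfl h2, Finset.sum_add_distrib, Finset.sum_const, Finset.card_range,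
        smul_eq_mul]
    rw [Finset.sum_congr rfl h1, ← Finset.sum_mul, Finset.sum_add_distrib, Finset.sum_const,
      Finset.card_univ, smul_eq_mul]
  obtain ⟨k, hk, b, x', y', z', hb, hbs, hx', hA⟩ := coniveau hm P h0 hsum (r := Fintype.card ι)
    (c := c) hcard (fun t => by
      rw [hval, add_mul]
      exact Nat.mul_le_mul_right m (Nat.add_le_add_right (hc t) _))
  refine ⟨k, hk, b, hb, fun t => ?_, x, y, z, x', y', z',
    fun i => ⟨hx i, hy i, hz i, hs i, hv i⟩, hx', hA⟩
  have h1 := hbs t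
  rw [hval] at h1
  have h2 := Nat.eq_of_mul_eq_mul_right hm0 h1
  have h3 : (c + Fintype.card ι) * orderOf P = c * orderOf P + Fintype.card ι * orderOf P := by
    ring
  omega

end Pool.Agent.GHCM
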