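import Pool.Agent.GHCM.CmTypes

/-!
# The converse: algebraic classes give the inequality
-/

set_option autoImplicit false

namespace Pool.Agent.GHCM

open Finset Pool.Agent.FermD Pool.Agent.FermAll

variable {m : ℕ} [NeZero m]

theorem triple_le {x y z : ZMod m} (h : x + y + z = 0) (u : (ZMod m)ˣ) :
    ((u : ZMod m) * -x).val + (((u : ZMod m) * -y).val + ((u : ZMod m) * -z).val) ≤ 2 * m := by
  have h1 : m ∣ ((u : ZMod m) * -x).val + (((u : ZMod m) * -y).val + ((u : ZMod m) * -z).val) := by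
    rw [← ZMod.natCast_eq_zero_iff]
    push_cast
    rw [ZMod.natCast_zmod_val, ZMod.natCast_zmod_val, ZMod.natCast_zmod_val]
    linear_combination (-(u : ZMod m)) * h
  obtain ⟨d, hd⟩ := h1
  have l1 := ZMod.val_lt ((u : ZMod m) * -x)
  have l2 := ZMod.val_lt ((u : ZMod m) * -y)
  have l3 := ZMod.val_lt ((u : ZMod m) * -z)
  rw [hd, mul_comm 2 m]
  refine Nat.mul_le_mul_left m ?_
  by_contra hcon
  have : 3 ≤ d := by omega
  have := Nat.mul_le_mul_left m this
  omega

theorem le_of_isTate {P : (ZMod m)ˣ} {s : Multiset (ZMod m)} {r c n k : ℕ}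
    (hcard : s.card = n + 2 * r) (hn : n = k + 2 * c) {x y z : Fin k → ZMod m}
    (h : ∀ l, x l + y l + z l = 0) (hT : IsTate P (s + ∑ l, {-x l, -y l, -z l}))
    (t : (ZMod m)ˣ) : (c + r) * orderOf P * m ≤
      (s.map fun x => ∑ i ∈ range (orderOf P),
        (((P ^ i * t : (ZMod m)ˣ) : ZMod m) * x).val).sum := by
  obtain ⟨-, R, hR, hT⟩ := hT
  have h1 := hT t
  rw [Multiset.map_add, Multiset.sum_add, map_sum_sum] at h1
  rw [Multiset.card_add, Multiset.card_sum, hcard, Finset.sum_congr rfl fun i _ => (show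
      Multiset.card ({-x i, -y i, -z i} : Multiset (ZMod m)) = 3 from rfl),
      Finset.sum_const, Finset.card_univ, smul_eq_mul, Fintype.card_fin] at hR
  have hR' : R = 2 * k + (c + r) := by omega
  subst hR'
  have h2 : ∑ l, (({-x l, -y l, -z l} : Multiset (ZMod m)).map fun c =>
      ∑ i ∈ range (orderOf P), (((P ^ i * t : (ZMod m)ˣ) : ZMod m) * c).val).sum ≤
      2 * k * (orderOf P * m) := by
    have h3 : ∀ l ∈ (univ : Finset (Fin k)), (({-x l, -y l, -z l} : Multiset (ZMod m)).map fun c =>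
        ∑ i ∈ range (orderOf P), (((P ^ i * t : (ZMod m)ˣ) : ZMod m) * c).val).sum ≤
        2 * (orderOf P * m) := by
      intro l _
      simp only [Multiset.insert_eq_cons, Multiset.map_cons, Multiset.map_singleton,
        Multiset.sum_cons, Multiset.sum_singleton]
      rw [← sum_add_distrib, ← sum_add_distrib]
      refine (sum_le_sum fun i _ => triple_le (h l) (P ^ i * t)).trans ?_
      rw [sum_const, card_range, smul_eq_mul]
      exact (by ring : orderOf P * (2 * m) = 2 * (orderOf P * m)).le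
    refine (sum_le_sum h3).trans ?_
    rw [sum_const, card_univ, Fintype.card_fin, smul_eq_mul]
    exact (by ring : k * (2 * (orderOf P * m)) = 2 * k * (orderOf P * m)).le
  have h4 : (2 * k + (c + r)) * orderOf P * m =
      2 * k * (orderOf P * m) + (c + r) * orderOf P * m := by ring
  rw [h4] at h1
  omega

/-- The lines of coniveau at least `c` are the images of the cohomology of the products of `n - 2 c`
Fermat curves under algebraic correspondences. -/
theorem coniveau_iff (hm : m ∈ degrees) (P : (ZMod m)ˣ) {s : Multiset (ZMod m)}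
    (h0 : (0 : ZMod m) ∉ s) (hs : s.sum = 0) {r c n : ℕ} (hcard : s.card = n + 2 * r) :
    (∀ t : (ZMod m)ˣ, (c + r) * orderOf P * m ≤
      (s.map fun x => ∑ i ∈ range (orderOf P),
        (((P ^ i * t : (ZMod m)ˣ) : ZMod m) * x).val).sum) ↔
    ∃ k : ℕ, n = k + 2 * c ∧ ∃ x y z : Fin k → ZMod m,
      (∀ l, x l ≠ 0 ∧ y l ≠ 0 ∧ z l ≠ 0 ∧ x l + y l + z l = 0) ∧
      Alg (curves P) (s + ∑ l, {-x l, -y l, -z l}) := by
  constructor
  · intro hc
    obtain ⟨k, hk, _, x, y, z, _, _, h, hA⟩ := coniveau hm P h0 hs hcard hc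
    exact ⟨k, hk, x, y, z, fun l => ⟨(h l).1, (h l).2.1, (h l).2.2.1, (h l).2.2.2.1⟩, hA⟩
  · rintro ⟨k, hk, x, y, z, h, hA⟩
    exact le_of_isTate hcard hk (fun l => (h l).2.2.2)
      ((tate_small (caseC_of_degrees hm) P _).2 hA).1

end Pool.Agent.GHCM
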