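import Mathlib

/-!
# Effective functions are sums of types of complex multiplication

Let `G` be a finite commutative group with an element of order two, written `-1`, and `P ∈ G` of
order `f`. A function `h : G → ℕ` with `h (P t) = h t` and `h t + h (-t) = k f` is of the form
`h t = ∑ l < k, ∑ i < f, b l (P ^ i t)` with `b l t + b l (-t) = 1`.
-/

set_option autoImplicit false

namespace Pool.Agent.GHCM

open Finset

/-- Counting the lattice points below `h` in a rectangle. -/
theorem sum_lt (f h : ℕ) : ∀ k : ℕ, h ≤ k * f →
    ∑ l ∈ range k, ∑ p ∈ range f, (if l * f + p < h then 1 else 0) = h := by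
  have key : ∀ k : ℕ, ∑ l ∈ range k, ∑ p ∈ range f, (if l * f + p < h then 1 else 0) =
      ∑ q ∈ range (k * f), (if q < h then 1 else 0) := by
    intro k
    induction k with
    | zero => simp
    | succ k ih =>
      rw [sum_range_succ, ih, add_mul, one_mul, sum_range_add]
  intro k hk
  rw [key, ← Finset.card_filter]
  have : (range (k * f)).filter (fun q => q < h) = range h := by
    ext q
    simp only [mem_filter, mem_range]
    omega
  rw [this, card_range]

/-- The rank function on a finite set is a bijection. -/
theorem sum_rank {ι : Type*} (I : Finset ι) (v : ι → ℕ) (hv : Set.InjOn v I) (F : ℕ → ℕ) :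
    ∑ i ∈ I, F ((I.filter fun j => v j < v i).card) = ∑ p ∈ range I.card, F p := by
  classical
  have hinj : Set.InjOn (fun i => (I.filter fun j => v j < v i).card) I := by
    have hlt : ∀ i ∈ I, ∀ j ∈ I, v i < v j →
        (I.filter fun l => v l < v i).card < (I.filter fun l => v l < v j).card := by
      intro i hi j hj hij
      refine Finset.card_lt_card ?_
      rw [Finset.ssubset_iff_of_subset]
      · exact ⟨i, by simp [hi, hij], by simp⟩
      · intro l hl
        rw [mem_filter] at hl ⊢
        exact ⟨hl.1, hl.2.trans hij⟩
    intro i hi j hj h
    rcases lt_trichotomy (v i) (v j) with h1 | h1 | h1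
    · exact absurd h (hlt i hi j hj h1).ne
    · exact hv hi hj h1
    · exact absurd h (hlt j hj i hi h1).ne'
  have himg : I.image (fun i => (I.filter fun j => v j < v i).card) = range I.card := by
    refine Finset.eq_of_subset_of_card_le ?_ ?_
    · intro x hx
      obtain ⟨i, hi, rfl⟩ := Finset.mem_image.1 hx
      rw [mem_range]
      refine Finset.card_lt_card ?_
      rw [Finset.ssubset_iff_of_subset (Finset.filter_subset _ _)]
      exact ⟨i, hi, by simp⟩
    · rw [Finset.card_image_of_injOn hinj, card_range]
  rw [← himg, Finset.sum_image hinj]

end Pool.Agent.GHCM
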