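import Pool.Agent.GHCM.Split

/-!
# Effective functions on the units modulo `m` are sums of types of complex multiplication
-/

set_option autoImplicit false

namespace Pool.Agent.GHCM

open Finset

variable {m : ℕ} [NeZero m]

omit [NeZero m] in
theorem unit_ne_neg (hm : 2 < m) (t : (ZMod m)ˣ) : (t : ZMod m) ≠ -(t : ZMod m) := by
  intro h
  have h1 : (t : ZMod m) * 2 = 0 := by
    rw [mul_two]
    nth_rewrite 2 [h]
    exact add_neg_cancel _
  rw [Units.mul_right_eq_zero] at h1
  have h2 : ((2 : ℕ) : ZMod m) = 0 := by exact_mod_cast h1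
  rw [ZMod.natCast_eq_zero_iff] at h2
  exact absurd (Nat.le_of_dvd two_pos h2) (by omega)

theorem val_neg_unit (hm : 2 < m) (t : (ZMod m)ˣ) :
    ((-t : (ZMod m)ˣ) : ZMod m).val = m - (t : ZMod m).val := by
  have : NeZero (t : ZMod m) := ⟨by
    have : Fact (1 < m) := ⟨by omega⟩
    exact t.ne_zero⟩
  rw [Units.val_neg, ZMod.val_neg_of_ne_zero]

theorem exists_types_of_effective (hm : 2 < m) (P : (ZMod m)ˣ) (k : ℕ) (h : (ZMod m)ˣ → ℕ)
    (hP : ∀ t, h (P * t) = h t) (hs : ∀ t, h t + h (-t) = k * orderOf P) :
    ∃ b : Fin k → (ZMod m)ˣ → ℕ, (∀ l t, b l t + b l (-t) = 1) ∧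
      ∀ t, ∑ l, ∑ i ∈ range (orderOf P), b l (P ^ i * t) = h t := by
  classical
  set f := orderOf P with hf
  set H : Finset (ZMod m)ˣ := (range f).image fun i => P ^ i with hH
  have hinj : Set.InjOn (fun i : ℕ => P ^ i) (range f) := by
    intro i hi j hj hij
    rw [coe_range, Set.mem_Iio] at hi hj
    exact pow_injOn_Iio_orderOf hi hj hij
  have hcardH : H.card = f := by rw [hH, card_image_of_injOn hinj, card_range]
  have hmemH : ∀ g, g ∈ H ↔ g ∈ Subgroup.zpowers P := by
    intro g
    rw [hH, ← mem_zpowers_iff_mem_range_orderOf]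
  have hsumH : ∀ F : (ZMod m)ˣ → ℕ, ∑ i ∈ range f, F (P ^ i) = ∑ g ∈ H, F g := by
    intro F
    rw [hH, sum_image hinj]
  have hhH : ∀ g ∈ H, ∀ t, h (g * t) = h t := by
    intro g hg t
    obtain ⟨i, _, rfl⟩ := mem_image.1 hg
    clear hg
    induction i with
    | zero => rw [pow_zero, one_mul]
    | succ i ih =>
      rw [pow_succ', mul_assoc, hP]
      by_cases hi : i ∈ range f
      · exact ih hi
      · rename_i hi'
        exact absurd (mem_range.2 (by rw [mem_range] at hi'; omega)) hi
  have h1H : (1 : (ZMod m)ˣ) ∈ H := (hmemH 1).2 (one_mem _)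
  set v : (ZMod m)ˣ → ℕ := fun t => (t : ZMod m).val with hv
  have hvinj : Function.Injective v := fun a b hab => Units.ext (ZMod.val_injective m hab)
  have hvlt : ∀ t, v t < m := fun t => ZMod.val_lt _
  have hvneg : ∀ t, v (-t) = m - v t := fun t => val_neg_unit hm t
  set pos : (ZMod m)ˣ → ℕ := fun t => (H.filter fun g => v (g * t) < v t).card with hpos
  have hpos1 : ∀ g₀ ∈ H, ∀ t, pos (g₀ * t) = (H.filter fun g => v (g * t) < v (g₀ * t)).card := by
    intro g₀ hg₀ t
    refine card_bij (fun g _ => g * g₀) ?_ ?_ ?_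
    · intro g hg
      rw [mem_filter] at hg ⊢
      refine ⟨(hmemH _).2 (mul_mem ((hmemH _).1 hg.1) ((hmemH _).1 hg₀)), ?_⟩
      rw [mul_assoc]
      exact hg.2
    · intro a _ b _ hab
      exact mul_right_cancel hab
    · intro g hg
      rw [mem_filter] at hg
      refine ⟨g * g₀⁻¹, ?_, by rw [inv_mul_cancel_right]⟩
      rw [mem_filter]
      refine ⟨(hmemH _).2 (mul_mem ((hmemH _).1 hg.1) (inv_mem ((hmemH _).1 hg₀))), ?_⟩
      rw [mul_assoc, inv_mul_cancel_left]
      exact hg.2
  have hpos2 : ∀ t, pos t + pos (-t) + 1 = f := by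
    intro t
    have h1 : (H.filter fun g => v (g * -t) < v (-t)) = H.filter fun g => v t < v (g * t) := by
      refine filter_congr fun g _ => ?_
      rw [show g * -t = -(g * t) from mul_neg _ _, hvneg, hvneg]
      have := hvlt (g * t)
      have := hvlt t
      omega
    have h2 : (H.filter fun g => v (g * t) = v t) = {1} := by
      ext g
      rw [mem_filter, mem_singleton]
      constructor
      · rintro ⟨_, hg⟩
        exact mul_eq_right.1 (hvinj hg)
      · rintro rfl
        exact ⟨h1H, by rw [one_mul]⟩
    have h3 : H.card = (H.filter fun g => v (g * t) < v t).card +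
        (H.filter fun g => v t < v (g * t)).card + (H.filter fun g => v (g * t) = v t).card := by
      rw [card_filter, card_filter, card_filter, ← sum_add_distrib, ← sum_add_distrib,
        card_eq_sum_ones]
      refine sum_congr rfl fun g _ => ?_
      rcases lt_trichotomy (v (g * t)) (v t) with h | h | h
      · rw [if_pos h, if_neg h.not_gt, if_neg h.ne]
      · rw [if_neg h.not_lt, if_neg h.not_gt, if_pos h]
      · rw [if_neg h.not_gt, if_pos h, if_neg h.ne']
    rw [h2, card_singleton, hcardH] at h3
    change _ + (H.filter fun g => v (g * -t) < v (-t)).card + 1 = f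
    rw [h1]
    exact h3.symm
  have hle : ∀ t, h t ≤ k * f := fun t => by have := hs t; omega
  set B : (ZMod m)ˣ → ℕ := fun t => ∑ l ∈ range k, if l * f + pos t < h t then 1 else 0 with hB
  have hB1 : ∀ t, ∑ i ∈ range f, B (P ^ i * t) = h t := by
    intro t
    rw [hsumH fun g => B (g * t)]
    change ∑ g ∈ H, ∑ l ∈ range k, (if l * f + pos (g * t) < h (g * t) then 1 else 0) = h t
    rw [sum_comm]
    have h1 : ∀ l ∈ range k, ∑ g ∈ H, (if l * f + pos (g * t) < h (g * t) then 1 else 0) =
        ∑ p ∈ range f, if l * f + p < h t then 1 else 0 := by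
      intro l _
      have h2 := sum_rank H (fun g => v (g * t))
        (fun a _ b _ hab => mul_right_cancel (hvinj hab))
        (fun p => if l * f + p < h t then 1 else 0)
      rw [hcardH] at h2
      rw [← h2]
      refine sum_congr rfl fun g hg => ?_
      rw [hhH g hg, hpos1 g hg]
    rw [sum_congr rfl h1, sum_lt f (h t) k (hle t)]
  have hB2 : ∀ t, B t + B (-t) = k := by
    intro t
    have h1 : B (-t) = ∑ l ∈ range k, if (k - 1 - l) * f + pos (-t) < h (-t) then 1 else 0 :=
      (sum_range_reflect (fun l => if l * f + pos (-t) < h (-t) then 1 else 0) k).symm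
    rw [h1]
    change ∑ l ∈ range k, (if l * f + pos t < h t then 1 else 0) + _ = k
    rw [← sum_add_distrib]
    have h2 : ∀ l ∈ range k, ((if l * f + pos t < h t then 1 else 0) +
        (if (k - 1 - l) * f + pos (-t) < h (-t) then 1 else 0) : ℕ) = 1 := by
      intro l hl
      rw [mem_range] at hl
      have h3 := hpos2 t
      have h4 := hs t
      obtain ⟨d, rfl⟩ := Nat.exists_eq_add_of_lt hl
      have h5 : l + d + 1 - 1 - l = d := by omega
      rw [h5]
      have h6 : (l + d + 1) * f = l * f + d * f + f := by ring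
      rw [h6] at h4
      split_ifs with h7 h8 h8 <;> omega
    rw [sum_congr rfl h2, sum_const, card_range, smul_eq_mul, mul_one]
  have hne : ∀ t, v t ≠ v (-t) := by
    intro t h
    refine unit_ne_neg hm t ?_
    have := congrArg (fun u : (ZMod m)ˣ => (u : ZMod m)) (hvinj h)
    rwa [Units.val_neg] at this
  let b : ℕ → (ZMod m)ˣ → ℕ := fun l t => if v t < v (-t) then (if l < B t then 1 else 0) else
    (if l < B (-t) then 0 else 1)
  have hb1 : ∀ l t, b l t + b l (-t) = 1 := by
    intro l t
    change (if v t < v (-t) then (if l < B t then 1 else 0) else (if l < B (-t) then 0 else 1)) +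
      (if v (-t) < v (- -t) then (if l < B (-t) then 1 else 0) else
        (if l < B (- -t) then 0 else 1)) = 1
    rw [neg_neg]
    rcases lt_or_gt_of_ne (hne t) with h | h
    · rw [if_pos h, if_neg h.not_gt]
      split_ifs <;> rfl
    · rw [if_neg h.not_gt, if_pos h]
      split_ifs <;> rfl
  have hb2 : ∀ t, ∑ l ∈ range k, b l t = B t := by
    intro t
    have hBk : ∀ t, B t ≤ k := fun t => by have := hB2 t; omega
    have hcount : ∀ N ≤ k, ((range k).filter fun l => l < N) = range N := by
      intro N hN
      ext l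
      simp only [mem_filter, mem_range]
      omega
    rcases lt_or_gt_of_ne (hne t) with h | h
    · have h1 : ∀ l ∈ range k, b l t = if l < B t then 1 else 0 := fun l _ => if_pos h
      rw [sum_congr rfl h1, ← card_filter, hcount _ (hBk t), card_range]
    · have h1 : ∀ l ∈ range k, b l t + (if l < B (-t) then 1 else 0) = 1 := by
        intro l _
        change (if v t < v (-t) then (if l < B t then 1 else 0) else
          (if l < B (-t) then 0 else 1)) + _ = 1
        rw [if_neg h.not_gt]
        split_ifs <;> rfl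
      have h2 := sum_congr rfl h1
      rw [sum_add_distrib, ← card_filter, hcount _ (hBk (-t)), card_range, sum_const, card_range,
        smul_eq_mul, mul_one] at h2
      have := hB2 t
      omega
  refine ⟨fun l t => b l t, fun l t => hb1 l t, fun t => ?_⟩
  rw [sum_comm, ← hB1 t]
  refine sum_congr rfl fun i _ => ?_
  rw [← hb2, Fin.sum_univ_eq_sum_range (fun l => b l (P ^ i * t)) k]

end Pool.Agent.GHCM
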